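import Mathlib

/-!
# MP_1f55c7_lc: diamond-free fragments of CK + N + wCD and CK + N + wCD + C
-/

namespace Pool.Agent.Results.MP_1f55c7_lc.DiamondFreeFragments

/-- Modal formulas over propositional variables `var 0, var 1, ...`. -/
inductive Fm : Type
  | var : ℕ → Fm
  | bot : Fm
  | and : Fm → Fm → Fm
  | or : Fm → Fm → Fm
  | imp : Fm → Fm → Fm
  | box : Fm → Fm
  | dia : Fm → Fm

namespace Fm

/-- `neg a` is `a → ⊥`. -/
def neg (a : Fm) : Fm := imp a bot

/-- The formula contains no diamond. -/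
def DiaFree : Fm → Prop
  | var _ => True
  | bot => True
  | and a b => a.DiaFree ∧ b.DiaFree
  | or a b => a.DiaFree ∧ b.DiaFree
  | imp a b => a.DiaFree ∧ b.DiaFree
  | box a => a.DiaFree
  | dia _ => False

/-- Uniform substitution. -/
def subst (σ : ℕ → Fm) : Fm → Fm
  | var n => σ n
  | bot => bot
  | and a b => and (a.subst σ) (b.subst σ)
  | or a b => or (a.subst σ) (b.subst σ)
  | imp a b => imp (a.subst σ) (b.subst σ)
  | box a => box (a.subst σ)
  | dia a => dia (a.subst σ)

end Fm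

open Fm

/-- The variables `p, q, r`. -/
abbrev p : Fm := var 0
@[inherit_doc p] abbrev q : Fm := var 1
@[inherit_doc p] abbrev r : Fm := var 2

/-- Axioms of intuitionistic propositional logic. -/
def IPCAx : Set Fm :=
  {imp p (imp q p), imp (imp p (imp q r)) (imp (imp p q) (imp p r)),
    imp (and p q) p, imp (and p q) q, imp p (imp q (and p q)),
    imp p (or p q), imp q (or p q), imp (imp p r) (imp (imp q r) (imp (or p q) r)),
    imp bot p}

/-- The least set of formulas containing `L` and all substitution instances of `A` and closed under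
modus ponens, necessitation and uniform substitution. -/
inductive Oplus (L A : Set Fm) : Fm → Prop
  | base {a : Fm} : a ∈ L → Oplus L A a
  | ax {a : Fm} (σ : ℕ → Fm) : a ∈ A → Oplus L A (a.subst σ)
  | mp {a b : Fm} : Oplus L A (imp a b) → Oplus L A a → Oplus L A b
  | nec {a : Fm} : Oplus L A a → Oplus L A (box a)
  | sub {a : Fm} (σ : ℕ → Fm) : Oplus L A a → Oplus L A (a.subst σ)

/-- The logic `L ⊕ A`. -/
def oplus (L A : Set Fm) : Set Fm := {a | Oplus L A a}

/-- `K_□`. -/
def Kbox : Fm := imp (box (imp p q)) (imp (box p) (box q))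

/-- `K_◇`. -/
def Kdia : Fm := imp (box (imp p q)) (imp (dia p) (dia q))

/-- `N_◇`. -/
def Ndia : Fm := imp (dia bot) bot

/-- `C_◇`. -/
def Cdia : Fm := imp (dia (or p q)) (or (dia p) (dia q))

/-- `wCD`. -/
def wCD : Fm := imp (box (or p q)) (imp (imp (dia p) (box q)) (box q))

/-- The logic `CK_□`. -/
def CKbox : Set Fm := oplus ∅ (IPCAx ∪ {Kbox})

/-- The logic `CK`. -/
def CK : Set Fm := oplus CKbox {Kdia}

/-- The logic `L₁ = CK ⊕ N_◇ ⊕ wCD`. -/
def L1 : Set Fm := oplus (oplus CK {Ndia}) {wCD}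

/-- The logic `L₂ = L₁ ⊕ C_◇`. -/
def L2 : Set Fm := oplus L1 {Cdia}

/-- The `◇`-free fragment of a logic. -/
def fragment (L : Set Fm) : Set Fm := {a | a.DiaFree ∧ a ∈ L}

/-- A set of `◇`-free formulas is finitely axiomatisable: it is the set of `◇`-free theorems of
`CK_□ ⊕ X` for some finite set `X` of `◇`-free formulas. -/
def FinAx (S : Set Fm) : Prop :=
  ∃ X : Set Fm, X.Finite ∧ (∀ a ∈ X, a.DiaFree) ∧ S = fragment (oplus CKbox X)

/-- The formula `□(p ∨ q) → ((¬□¬p → □q) → □q)`. -/
def chi : Fm := imp (box (or p q)) (imp (imp (neg (box (neg p))) (box q)) (box q))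

/-! ### Closure properties -/

/-- Sets of formulas closed under the rules. -/
structure Closed (S : Set Fm) : Prop where
  mp : ∀ {a b}, imp a b ∈ S → a ∈ S → b ∈ S
  nec : ∀ {a}, a ∈ S → box a ∈ S
  sub : ∀ {a} (σ : ℕ → Fm), a ∈ S → a.subst σ ∈ S

theorem oplus_closed (L A : Set Fm) : Closed (oplus L A) :=
  ⟨fun h1 h2 => Oplus.mp h1 h2, fun h => Oplus.nec h, fun σ h => Oplus.sub σ h⟩

theorem subset_oplus (L A : Set Fm) : L ⊆ oplus L A := fun _ h => Oplus.base h

theorem ax_oplus {L A : Set Fm} {a : Fm} (h : a ∈ A) (σ : ℕ → Fm) : a.subst σ ∈ oplus L A :=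
  Oplus.ax σ h

theorem oplus_subset {L A S : Set Fm} (hS : Closed S) (hL : L ⊆ S)
    (hA : ∀ a ∈ A, ∀ σ : ℕ → Fm, a.subst σ ∈ S) : oplus L A ⊆ S := by
  intro a ha
  induction ha with
  | base h => exact hL h
  | ax σ h => exact hA _ h σ
  | mp _ _ h1 h2 => exact hS.mp h1 h2
  | nec _ h => exact hS.nec h
  | sub σ _ h => exact hS.sub σ h

/-- Substitution of three formulas for `p, q, r`. -/
def s3 (a b c : Fm) : ℕ → Fm
  | 0 => a
  | 1 => b
  | _ => c

/-- A logic: a closed set containing `CK_□`. -/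
structure IsLogic (S : Set Fm) : Prop extends Closed S where
  ck : CKbox ⊆ S

theorem isLogic_oplus {L : Set Fm} (hL : CKbox ⊆ L) (A : Set Fm) : IsLogic (oplus L A) :=
  { oplus_closed L A with ck := hL.trans (subset_oplus L A) }

theorem ckbox_logic : IsLogic CKbox := { oplus_closed _ _ with ck := Set.Subset.rfl }

namespace IsLogic

variable {S : Set Fm} (hS : IsLogic S)
include hS

theorem k (a b : Fm) : imp a (imp b a) ∈ S :=
  hS.ck (ax_oplus (a := imp p (imp q p)) (by simp [IPCAx]) (s3 a b b))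

theorem s (a b c : Fm) : imp (imp a (imp b c)) (imp (imp a b) (imp a c)) ∈ S :=
  hS.ck (ax_oplus (a := imp (imp p (imp q r)) (imp (imp p q) (imp p r))) (by simp [IPCAx])
    (s3 a b c))

theorem andl (a b : Fm) : imp (and a b) a ∈ S :=
  hS.ck (ax_oplus (a := imp (and p q) p) (by simp [IPCAx]) (s3 a b b))

theorem andr (a b : Fm) : imp (and a b) b ∈ S :=
  hS.ck (ax_oplus (a := imp (and p q) q) (by simp [IPCAx]) (s3 a b b))

theorem andi (a b : Fm) : imp a (imp b (and a b)) ∈ S :=
  hS.ck (ax_oplus (a := imp p (imp q (and p q))) (by simp [IPCAx]) (s3 a b b))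

theorem orl (a b : Fm) : imp a (or a b) ∈ S :=
  hS.ck (ax_oplus (a := imp p (or p q)) (by simp [IPCAx]) (s3 a b b))

theorem orr (a b : Fm) : imp b (or a b) ∈ S :=
  hS.ck (ax_oplus (a := imp q (or p q)) (by simp [IPCAx]) (s3 a b b))

theorem ore (a b c : Fm) : imp (imp a c) (imp (imp b c) (imp (or a b) c)) ∈ S :=
  hS.ck (ax_oplus (a := imp (imp p r) (imp (imp q r) (imp (or p q) r))) (by simp [IPCAx])
    (s3 a b c))

theorem efq (a : Fm) : imp bot a ∈ S :=
  hS.ck (ax_oplus (a := imp bot p) (by simp [IPCAx]) (s3 a a a))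

theorem kbox (a b : Fm) : imp (box (imp a b)) (imp (box a) (box b)) ∈ S :=
  hS.ck (ax_oplus (a := Kbox) (by simp [IPCAx]) (s3 a b b))

end IsLogic

/-- Derivability from hypotheses by modus ponens. -/
inductive H (S Γ : Set Fm) : Fm → Prop
  | thm {a : Fm} : a ∈ S → H S Γ a
  | hyp {a : Fm} : a ∈ Γ → H S Γ a
  | mp {a b : Fm} : H S Γ (imp a b) → H S Γ a → H S Γ b

theorem H.self {S Γ : Set Fm} (hS : IsLogic S) (a : Fm) : H S Γ (imp a a) :=
  .mp (.mp (.thm (hS.s a (imp a a) a)) (.thm (hS.k a (imp a a)))) (.thm (hS.k a a))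

theorem H.ded {S Γ : Set Fm} (hS : IsLogic S) {a b : Fm} (h : H S (insert a Γ) b) :
    H S Γ (imp a b) := by
  induction h with
  | thm h => exact .mp (.thm (hS.k _ _)) (.thm h)
  | hyp h =>
    rcases h with rfl | h
    · exact H.self hS _
    · exact .mp (.thm (hS.k _ _)) (.hyp h)
  | mp _ _ h1 h2 => exact .mp (.mp (.thm (hS.s _ _ _)) h1) h2

theorem H.close {S : Set Fm} (hS : IsLogic S) {a : Fm} (h : H S ∅ a) : a ∈ S := by
  induction h with
  | thm h => exact h
  | hyp h => exact absurd h (Set.notMem_empty _)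
  | mp _ _ h1 h2 => exact hS.mp h1 h2

theorem H.or_elim {S Γ : Set Fm} (hS : IsLogic S) {a b c : Fm} (h : H S Γ (or a b))
    (h1 : H S Γ (imp a c)) (h2 : H S Γ (imp b c)) : H S Γ c :=
  .mp (.mp (.mp (.thm (hS.ore a b c)) h1) h2) h

theorem imp_trans {S : Set Fm} (hS : IsLogic S) {a b c : Fm} (h1 : imp a b ∈ S)
    (h2 : imp b c ∈ S) : imp a c ∈ S :=
  (H.ded hS (.mp (.thm h2) (.mp (.thm h1) (.hyp (by simp))))).close hS

theorem or_mono {S : Set Fm} (hS : IsLogic S) {a b c d : Fm} (h1 : imp a c ∈ S)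
    (h2 : imp b d ∈ S) : imp (or a b) (or c d) ∈ S :=
  hS.mp (hS.mp (hS.ore a b (or c d)) (imp_trans hS h1 (hS.orl c d)))
    (imp_trans hS h2 (hS.orr c d))

/-! ### The logics -/

theorem ck_logic : IsLogic CK := isLogic_oplus Set.Subset.rfl _

theorem ckn_logic : IsLogic (oplus CK {Ndia}) := isLogic_oplus ck_logic.ck _

theorem l1_logic : IsLogic L1 := isLogic_oplus ckn_logic.ck _

theorem l2_logic : IsLogic L2 := isLogic_oplus l1_logic.ck _

theorem l0_logic : IsLogic (oplus CKbox {chi}) := isLogic_oplus Set.Subset.rfl _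

theorem l1_le_l2 : L1 ⊆ L2 := subset_oplus _ _

theorem l1_kdia (a b : Fm) : imp (box (imp a b)) (imp (dia a) (dia b)) ∈ L1 :=
  subset_oplus _ _ (subset_oplus _ _ (ax_oplus (a := Kdia) (Set.mem_singleton _) (s3 a b b)))

theorem l1_ndia : imp (dia bot) bot ∈ L1 :=
  subset_oplus _ _ (ax_oplus (a := Ndia) (Set.mem_singleton _) (s3 bot bot bot))

theorem l1_wcd (a b : Fm) : imp (box (or a b)) (imp (imp (dia a) (box b)) (box b)) ∈ L1 :=
  ax_oplus (a := wCD) (Set.mem_singleton _) (s3 a b b)

theorem l2_cdia (a b : Fm) : imp (dia (or a b)) (or (dia a) (dia b)) ∈ L2 :=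
  ax_oplus (a := Cdia) (Set.mem_singleton _) (s3 a b b)

/-- `◇a → ¬□¬a`. -/
theorem l1_dia_neg (a : Fm) : imp (dia a) (neg (box (neg a))) ∈ L1 := by
  refine (H.ded l1_logic (H.ded l1_logic ?_)).close l1_logic
  exact .mp (.thm l1_ndia) (.mp (.mp (.thm (l1_kdia a bot)) (.hyp (by simp [neg])))
    (.hyp (by simp)))

/-- From `◇a → e` derive `□(a ∨ b) → ((e → □b) → □b)`. -/
theorem wcd_weaken {S : Set Fm} (hS : IsLogic S) (h1 : L1 ⊆ S) {a b e : Fm}
    (h : imp (dia a) e ∈ S) :
    imp (box (or a b)) (imp (imp e (box b)) (box b)) ∈ S := by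
  refine (H.ded hS (H.ded hS ?_)).close hS
  refine .mp (.mp (.thm (h1 (l1_wcd a b))) (.hyp (by simp))) ?_
  refine H.ded hS ?_
  exact .mp (.hyp (by simp)) (.mp (.thm h) (.hyp (by simp)))

theorem subst_subst (σ τ : ℕ → Fm) (a : Fm) :
    (a.subst σ).subst τ = a.subst (fun n => (σ n).subst τ) := by
  induction a with
  | var n => rfl
  | bot => rfl
  | and a b ha hb => simp only [subst, ha, hb]
  | or a b ha hb => simp only [subst, ha, hb]
  | imp a b ha hb => simp only [subst, ha, hb]
  | box a ha => simp only [subst, ha]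
  | dia a ha => simp only [subst, ha]

theorem l0_le_l1 : oplus CKbox {chi} ⊆ L1 := by
  refine oplus_subset (oplus_closed _ _) l1_logic.ck ?_
  rintro a rfl σ
  exact wcd_weaken l1_logic Set.Subset.rfl (l1_dia_neg _)

/-- The translation `◇a ↦ ¬□¬a`. -/
def tr : Fm → Fm
  | .var n => .var n
  | .bot => .bot
  | .and a b => .and (tr a) (tr b)
  | .or a b => .or (tr a) (tr b)
  | .imp a b => .imp (tr a) (tr b)
  | .box a => .box (tr a)
  | .dia a => neg (.box (neg (tr a)))

theorem tr_of_diaFree {a : Fm} (h : a.DiaFree) : tr a = a := by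
  induction a with
  | var n => rfl
  | bot => rfl
  | and a b ha hb => simp only [tr, ha h.1, hb h.2]
  | or a b ha hb => simp only [tr, ha h.1, hb h.2]
  | imp a b ha hb => simp only [tr, ha h.1, hb h.2]
  | box a ha => simp only [tr, ha h]
  | dia a => exact absurd h (by simp [DiaFree])

theorem tr_subst (σ : ℕ → Fm) (a : Fm) :
    tr (a.subst σ) = (tr a).subst (fun n => tr (σ n)) := by
  induction a with
  | var n => rfl
  | bot => rfl
  | and a b ha hb => simp only [subst, tr, ha, hb]
  | or a b ha hb => simp only [subst, tr, ha, hb]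
  | imp a b ha hb => simp only [subst, tr, ha, hb]
  | box a ha => simp only [subst, tr, ha]
  | dia a ha => simp only [subst, tr, ha, neg]

theorem tr_closed {S : Set Fm} (hS : Closed S) : Closed {a | tr a ∈ S} := by
  refine ⟨fun h1 h2 => hS.mp h1 h2, fun h => hS.nec h, fun {a} σ h => ?_⟩
  change tr (a.subst σ) ∈ S
  rw [tr_subst]
  exact hS.sub _ h

/-- `□(a → b) → (¬□¬a → ¬□¬b)` holds in every logic. -/
theorem kdia_tr {S : Set Fm} (hS : IsLogic S) (a b : Fm) :
    imp (box (imp a b)) (imp (neg (box (neg a))) (neg (box (neg b)))) ∈ S := by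
  have key : imp (imp a b) (imp (neg b) (neg a)) ∈ S := by
    refine (H.ded hS (H.ded hS (H.ded hS ?_))).close hS
    exact .mp (a := b) (.hyp (by simp [neg])) (.mp (a := a) (.hyp (by simp)) (.hyp (by simp)))
  have k1 : imp (box (imp a b)) (imp (box (neg b)) (box (neg a))) ∈ S :=
    imp_trans hS (hS.mp (hS.kbox _ _) (hS.nec key)) (hS.kbox _ _)
  refine (H.ded hS (H.ded hS (H.ded hS ?_))).close hS
  refine .mp (a := box (neg a)) (.hyp (by simp [neg])) ?_
  exact .mp (.mp (.thm k1) (.hyp (by simp))) (.hyp (by simp))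

theorem l1_tr : L1 ⊆ {a | tr a ∈ oplus CKbox {chi}} := by
  have hc := tr_closed (oplus_closed CKbox {chi})
  have h0 := l0_logic
  refine oplus_subset hc (oplus_subset hc (oplus_subset hc (oplus_subset hc ?_ ?_) ?_) ?_) ?_
  · exact Set.empty_subset _
  · rintro a (ha | rfl) σ
    · change tr (a.subst σ) ∈ oplus CKbox {chi}
      rw [tr_subst]
      have : tr a = a := by
        apply tr_of_diaFree
        simp only [IPCAx, Set.mem_insert_iff, Set.mem_singleton_iff] at ha
        rcases ha with rfl | rfl | rfl | rfl | rfl | rfl | rfl | rfl | rfl <;>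
          simp [DiaFree]
      rw [this]
      exact h0.ck (ax_oplus (Or.inl ha) _)
    · exact h0.kbox _ _
  · rintro a rfl σ
    exact kdia_tr h0 _ _
  · rintro a rfl σ
    change imp (neg (box (neg bot))) bot ∈ oplus CKbox {chi}
    refine (H.ded h0 ?_).close h0
    refine .mp (a := box (neg bot)) (.hyp (by simp [neg])) (.thm (h0.nec ?_))
    exact h0.efq bot
  · rintro a rfl σ
    exact ax_oplus (a := chi) (Set.mem_singleton _) (fun n => tr (σ n))

theorem fragment_l1 : fragment L1 = fragment (oplus CKbox {chi}) := by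
  ext a
  constructor
  · rintro ⟨h1, h2⟩
    refine ⟨h1, ?_⟩
    have := l1_tr h2
    change tr a ∈ oplus CKbox {chi} at this
    rwa [tr_of_diaFree h1] at this
  · rintro ⟨h1, h2⟩
    exact ⟨h1, l0_le_l1 h2⟩

/-! ### The formulas separating the logics -/

/-- Disjunction of a list. -/
def bigor : List Fm → Fm
  | [] => bot
  | a :: l => or a (bigor l)

/-- The double negation like formula `¬□¬a`. -/
def nbn (a : Fm) : Fm := neg (box (neg a))

/-- The variables `s_1, ..., s_k`. -/
def ss (k : ℕ) : List Fm := (List.range k).map fun i => var (i + 1)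

/-- The formula `□((c → ⋁ s_i) ∨ c) → (((□c → ⋁ ¬□¬s_i) → □c) → □c)`. -/
def psi (k : ℕ) : Fm :=
  imp (box (or (imp (var 0) (bigor (ss k))) (var 0)))
    (imp (imp (imp (box (var 0)) (bigor ((ss k).map nbn))) (box (var 0))) (box (var 0)))

theorem bigor_diaFree {l : List Fm} (h : ∀ a ∈ l, a.DiaFree) : (bigor l).DiaFree := by
  induction l with
  | nil => trivial
  | cons a l ih =>
    exact ⟨h a (by simp), ih fun b hb => h b (by simp [hb])⟩

theorem psi_diaFree (k : ℕ) : (psi k).DiaFree := by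
  have h1 : (bigor (ss k)).DiaFree := bigor_diaFree (by
    intro a ha
    simp only [ss, List.mem_map] at ha
    obtain ⟨i, _, rfl⟩ := ha
    trivial)
  have h2 : (bigor ((ss k).map nbn)).DiaFree := bigor_diaFree (by
    intro a ha
    simp only [ss, List.mem_map] at ha
    obtain ⟨b, ⟨i, _, rfl⟩, rfl⟩ := ha
    simp [nbn, neg, DiaFree])
  simp only [psi, DiaFree]
  exact ⟨⟨⟨trivial, h1⟩, trivial⟩, ⟨⟨trivial, h2⟩, trivial⟩, trivial⟩

theorem dia_bigor (l : List Fm) : imp (dia (bigor l)) (bigor (l.map nbn)) ∈ L2 := by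
  induction l with
  | nil => exact l1_le_l2 l1_ndia
  | cons a l ih =>
    exact imp_trans l2_logic (l2_cdia a (bigor l))
      (or_mono l2_logic (l1_le_l2 (l1_dia_neg a)) ih)

theorem psi_mem (k : ℕ) : psi k ∈ L2 := by
  refine wcd_weaken l2_logic l1_le_l2 ?_
  refine (H.ded l2_logic (H.ded l2_logic ?_)).close l2_logic
  refine .mp (.thm (dia_bigor (ss k))) ?_
  refine .mp (.mp (.thm (l1_le_l2 (l1_kdia (imp (var 0) (bigor (ss k))) (bigor (ss k))))) ?_)
    (.hyp (by simp))
  have key : imp (var 0) (imp (imp (var 0) (bigor (ss k))) (bigor (ss k))) ∈ L2 := by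
    refine (H.ded l2_logic (H.ded l2_logic ?_)).close l2_logic
    exact .mp (a := var 0) (.hyp (by simp)) (.hyp (by simp))
  exact .mp (.thm (l2_logic.mp (l2_logic.kbox _ _) (l2_logic.nec key))) (.hyp (by simp))

/-! ### Semantics -/

/-- Birelational frames. -/
structure Frame (W : Type) where
  le : W → W → Prop
  refl : ∀ w, le w w
  trans : ∀ {a b c}, le a b → le b c → le a c
  R : W → W → Prop

variable {W : Type}

/-- Upward closed sets of worlds. -/
def Up (F : Frame W) (A : W → Prop) : Prop := ∀ a b, F.le a b → A a → A b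

/-- Truth, with an arbitrary interpretation `D` of the diamond. -/
def ev (F : Frame W) (D : (W → Prop) → W → Prop) (V : ℕ → W → Prop) : Fm → W → Prop
  | .var n => V n
  | .bot => fun _ => False
  | .and a b => fun w => ev F D V a w ∧ ev F D V b w
  | .or a b => fun w => ev F D V a w ∨ ev F D V b w
  | .imp a b => fun w => ∀ w', F.le w w' → ev F D V a w' → ev F D V b w'
  | .box a => fun w => ∀ w', F.le w w' → ∀ v, F.R w' v → ev F D V a v
  | .dia a => D (ev F D V a)

/-- Valid formulas. -/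
def Val (F : Frame W) (D : (W → Prop) → W → Prop) : Set Fm :=
  {a | ∀ V : ℕ → W → Prop, (∀ n, Up F (V n)) → ∀ w, ev F D V a w}

theorem ev_up {F : Frame W} {D : (W → Prop) → W → Prop} (hD : ∀ A, Up F A → Up F (D A))
    {V : ℕ → W → Prop} (hV : ∀ n, Up F (V n)) (a : Fm) : Up F (ev F D V a) := by
  induction a with
  | var n => exact hV n
  | bot => exact fun _ _ _ h => h
  | and a b ha hb => exact fun x y h hx => ⟨ha x y h hx.1, hb x y h hx.2⟩
  | or a b ha hb => exact fun x y h hx => hx.imp (ha x y h) (hb x y h)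
  | imp a b ha hb => exact fun x y h hx w hw => hx w (F.trans h hw)
  | box a ha => exact fun x y h hx w hw => hx w (F.trans h hw)
  | dia a ha => exact hD _ ha

theorem ev_subst (F : Frame W) (D : (W → Prop) → W → Prop) (V : ℕ → W → Prop) (σ : ℕ → Fm)
    (a : Fm) : ev F D V (a.subst σ) = ev F D (fun n => ev F D V (σ n)) a := by
  induction a with
  | var n => rfl
  | bot => rfl
  | and a b ha hb => simp only [subst, ev, ha, hb]
  | or a b ha hb => simp only [subst, ev, ha, hb]
  | imp a b ha hb => simp only [subst, ev, ha, hb]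
  | box a ha => simp only [subst, ev, ha]
  | dia a ha => simp only [subst, ev, ha]

theorem val_closed {F : Frame W} {D : (W → Prop) → W → Prop} (hD : ∀ A, Up F A → Up F (D A)) :
    Closed (Val F D) := by
  refine ⟨fun h1 h2 V hV w => h1 V hV w w (F.refl w) (h2 V hV w),
    fun h V hV w w' _ v _ => h V hV v, fun {a} σ h V hV w => ?_⟩
  rw [ev_subst]
  exact h _ (fun n => ev_up hD hV (σ n)) w

/-- A valid formula has valid substitution instances; hence it suffices to check axioms. -/
theorem oplus_val {F : Frame W} {D : (W → Prop) → W → Prop} (hD : ∀ A, Up F A → Up F (D A))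
    {L A : Set Fm} (hL : L ⊆ Val F D) (hA : A ⊆ Val F D) : oplus L A ⊆ Val F D :=
  oplus_subset (val_closed hD) hL fun _ ha σ => (val_closed hD).sub σ (hA ha)

theorem ckbox_val {F : Frame W} {D : (W → Prop) → W → Prop} (hD : ∀ A, Up F A → Up F (D A)) :
    CKbox ⊆ Val F D := by
  refine oplus_val hD (Set.empty_subset _) ?_
  rintro a (ha | rfl)
  · simp only [IPCAx, Set.mem_insert_iff, Set.mem_singleton_iff] at ha
    rcases ha with rfl | rfl | rfl | rfl | rfl | rfl | rfl | rfl | rfl
    · intro V hV w w1 h1 hp w2 h2 _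
      exact hV 0 _ _ h2 hp
    · intro V hV w w1 h1 hpqr w2 h2 hpq w3 h3 hp
      exact hpqr w3 (F.trans h2 h3) hp w3 (F.refl _) (hpq w3 h3 hp)
    · intro V hV w w1 h1 hp
      exact hp.1
    · intro V hV w w1 h1 hp
      exact hp.2
    · intro V hV w w1 h1 hp w2 h2 hq
      exact ⟨hV 0 _ _ h2 hp, hq⟩
    · intro V hV w w1 h1 hp
      exact Or.inl hp
    · intro V hV w w1 h1 hp
      exact Or.inr hp
    · intro V hV w w1 h1 hpr w2 h2 hqr w3 h3 hpq
      rcases hpq with hp | hq
      · exact hpr w3 (F.trans h2 h3) hp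
      · exact hqr w3 h3 hq
    · intro V hV w w1 h1 hp
      exact hp.elim
  · intro V hV w w1 h1 hpq w2 h2 hp w3 h3 v hv
    exact hpq w3 (F.trans h2 h3) v hv v (F.refl _) (hp w3 h3 v hv)

/-- Forward confluence. -/
def FC (F : Frame W) : Prop := ∀ a b v, F.le a b → F.R a v → ∃ v', F.R b v' ∧ F.le v v'

/-- The existential diamond. -/
def exD (F : Frame W) (A : W → Prop) (w : W) : Prop := ∃ v, F.R w v ∧ A v

theorem exD_up {F : Frame W} (hF : FC F) (A : W → Prop) (hA : Up F A) : Up F (exD F A) := by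
  rintro a b h ⟨v, hv, hAv⟩
  obtain ⟨v', h1, h2⟩ := hF a b v h hv
  exact ⟨v', h1, hA _ _ h2 hAv⟩

theorem l2_val {F : Frame W} (hF : FC F) : L2 ⊆ Val F (exD F) := by
  have hD := exD_up hF
  refine oplus_val hD (oplus_val hD (oplus_val hD (oplus_val hD (ckbox_val hD) ?_) ?_) ?_) ?_
  · rintro a rfl V hV w w1 h1 hpq w2 h2 ⟨v, hv, hp⟩
    exact ⟨v, hv, hpq w2 h2 v hv v (F.refl _) hp⟩
  · rintro a rfl V hV w w1 h1 ⟨v, hv, hp⟩
    exact hp
  · rintro a rfl V hV w w1 h1 hpq w2 h2 hw w3 h3 v hv
    rcases hpq w3 (F.trans h2 h3) v hv with hp | hq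
    · exact hw w3 h3 ⟨v, hv, hp⟩ w3 (F.refl _) v hv
    · exact hq
  · rintro a rfl V hV w w1 h1 ⟨v, hv, hp | hq⟩
    · exact Or.inl ⟨v, hv, hp⟩
    · exact Or.inr ⟨v, hv, hq⟩

/-- The interpretation of the diamond does not matter for diamond free formulas. -/
theorem ev_diaFree (F : Frame W) (D D' : (W → Prop) → W → Prop) (V : ℕ → W → Prop) {a : Fm}
    (h : a.DiaFree) : ev F D V a = ev F D' V a := by
  induction a with
  | var n => rfl
  | bot => rfl
  | and a b ha hb => simp only [ev, ha h.1, hb h.2]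
  | or a b ha hb => simp only [ev, ha h.1, hb h.2]
  | imp a b ha hb => simp only [ev, ha h.1, hb h.2]
  | box a ha =>
    have := ha h
    simp only [ev, this]
  | dia a => exact absurd h (by simp [DiaFree])

theorem ev_bigor (F : Frame W) (D : (W → Prop) → W → Prop) (V : ℕ → W → Prop) (l : List Fm)
    (w : W) : ev F D V (bigor l) w ↔ ∃ a ∈ l, ev F D V a w := by
  induction l with
  | nil => simp [bigor, ev]
  | cons a l ih => simp [bigor, ev, ih]

/-! ### The frames -/

/-- Worlds of the frame `F_k`. -/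
inductive Wd (k : ℕ) : Type
  | M : Wd k
  | N : Wd k
  | n : Fin k → Wd k
  | v : Wd k
  | u : Fin k → Wd k

/-- The order of `F_k`. -/
def wle {k : ℕ} : Wd k → Wd k → Prop
  | .M, .M => True
  | .M, .N => True
  | .M, .n _ => True
  | .N, .N => True
  | .N, .n _ => True
  | .n i, .n j => i = j
  | .v, .v => True
  | .v, .u _ => True
  | .u i, .u j => i = j
  | _, _ => False

/-- The accessibility relation of `F_k`. -/
def wR {k : ℕ} : Wd k → Wd k → Prop
  | .M, .v => True
  | .n i, .u j => i ≠ j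
  | _, _ => False

/-- The accessibility relation with additional pairs `(N, u i)`, `(n i, u i)`. -/
def wR' {k : ℕ} (i : Fin k) : Wd k → Wd k → Prop
  | .M, .v => True
  | .N, .u j => j = i
  | .n l, .u j => l ≠ j ∨ j = i
  | _, _ => False

theorem wle_refl {k : ℕ} (a : Wd k) : wle a a := by cases a <;> simp [wle]

theorem wle_trans {k : ℕ} {a b c : Wd k} (h1 : wle a b) (h2 : wle b c) : wle a c := by
  cases a <;> cases b <;> simp only [wle] at h1 <;> cases c <;> simp_all [wle]

/-- The frame `F_k`. -/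
def Fk (k : ℕ) : Frame (Wd k) := ⟨wle, wle_refl, wle_trans, wR⟩

/-- The frame `G_k` with the additional pairs. -/
def Gk {k : ℕ} (i : Fin k) : Frame (Wd k) := ⟨wle, wle_refl, wle_trans, wR' i⟩

theorem gk_fc {k : ℕ} (i : Fin k) : FC (Gk i) := by
  intro a b w hab haw
  change wle a b at hab
  change wR' i a w at haw
  change ∃ v', wR' i b v' ∧ wle w v'
  cases a <;> cases w <;> simp only [wR'] at haw <;> cases b <;> simp only [wle] at hab
  · exact ⟨.v, trivial, trivial⟩
  · exact ⟨.u i, rfl, trivial⟩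
  · exact ⟨.u i, Or.inr rfl, trivial⟩
  · exact ⟨.u i, rfl, haw⟩
  · exact ⟨.u i, Or.inr rfl, haw⟩
  · rename_i l j l'
    subst hab
    exact ⟨.u j, haw, rfl⟩

/-- `id` as an interpretation of the diamond. -/
theorem id_up (F : Frame W) : ∀ A, Up F A → Up F ((fun A => A) A) := fun _ h => h

/-- `chi` is valid in `F_k`. -/
theorem chi_val {k : ℕ} (hk : 2 ≤ k) : oplus CKbox {chi} ⊆ Val (Fk k) (fun A => A) := by
  refine oplus_val (id_up _) (ckbox_val (id_up _)) ?_
  rintro a rfl V hV w w1 h1 hpq w2 h2 hw w3 h3 x hx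
  rcases hpq w3 ((Fk k).trans h2 h3) x hx with hp | hq
  swap
  · exact hq
  refine hw w3 h3 ?_ w3 ((Fk k).refl _) x hx
  intro w4 h4 hb
  change wR w3 x at hx
  change wle w3 w4 at h4
  -- find `w5 ≥ w4` and `y ≥ x` with `R w5 y`
  have key : ∃ w5 y, wle w4 w5 ∧ wR w5 y ∧ wle x y := by
    cases w3 <;> cases x <;> simp only [wR] at hx <;> cases w4 <;> simp only [wle] at h4
    · exact ⟨.M, .v, trivial, trivial, trivial⟩
    · exact ⟨.n ⟨0, by omega⟩, .u ⟨1, by omega⟩, trivial, by simp [wR], trivial⟩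
    · rename_i l
      obtain ⟨j, hj⟩ : ∃ j : Fin k, l ≠ j := by
        by_cases h : l = ⟨0, by omega⟩
        · exact ⟨⟨1, by omega⟩, by rw [h]; simp⟩
        · exact ⟨_, h⟩
      exact ⟨.n l, .u j, rfl, hj, trivial⟩
    · rename_i i j l
      subst h4
      exact ⟨.n i, .u j, rfl, hx, rfl⟩
  obtain ⟨w5, y, h5, h6, h7⟩ := key
  exact hb w5 h5 y h6 y ((Fk k).refl _) (hV 0 _ _ h7 hp)

/-- Bound on the variables. -/
def mv : Fm → ℕ
  | .var n => n + 1
  | .bot => 0
  | .and a b => max (mv a) (mv b)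
  | .or a b => max (mv a) (mv b)
  | .imp a b => max (mv a) (mv b)
  | .box a => mv a
  | .dia a => mv a

/-- In `F_k`, if the valuation agrees at `u i` and `u j` on the variables below `m` then all
diamond free formulas in these variables agree. -/
theorem agree {k : ℕ} {V : ℕ → Wd k → Prop} {m : ℕ} {i j : Fin k}
    (h : ∀ n < m, V n (.u i) ↔ V n (.u j)) {a : Fm} (ha : a.DiaFree) (hm : mv a ≤ m) :
    ev (Fk k) (fun A => A) V a (.u i) ↔ ev (Fk k) (fun A => A) V a (.u j) := by
  have hle : ∀ (l : Fin k) (w : Wd k), wle (.u l) w → w = .u l := by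
    intro l w hw
    cases w <;> simp only [wle] at hw
    rw [hw]
  induction a with
  | var n => exact h n hm
  | bot => exact Iff.rfl
  | and a b iha ihb =>
    exact and_congr (iha ha.1 (le_trans (le_max_left _ _) hm))
      (ihb ha.2 (le_trans (le_max_right _ _) hm))
  | or a b iha ihb =>
    exact or_congr (iha ha.1 (le_trans (le_max_left _ _) hm))
      (ihb ha.2 (le_trans (le_max_right _ _) hm))
  | imp a b iha ihb =>
    have h1 := iha ha.1 (le_trans (le_max_left _ _) hm)
    have h2 := ihb ha.2 (le_trans (le_max_right _ _) hm)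
    constructor
    · intro hx w hw hwa
      rw [hle _ _ hw] at hwa ⊢
      exact h2.1 (hx _ ((Fk k).refl _) (h1.2 hwa))
    · intro hx w hw hwa
      rw [hle _ _ hw] at hwa ⊢
      exact h2.2 (hx _ ((Fk k).refl _) (h1.1 hwa))
  | box a iha =>
    constructor
    · intro _ w hw x hx
      rw [hle _ _ hw] at hx
      exact absurd hx (by simp [Fk, wR])
    · intro _ w hw x hx
      rw [hle _ _ hw] at hx
      exact absurd hx (by simp [Fk, wR])
  | dia a => exact absurd ha (by simp [DiaFree])

/-- Truth in `F_k` and in `G_k` agree. -/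
theorem transfer {k : ℕ} {V : ℕ → Wd k → Prop} {m : ℕ} {i j : Fin k} (hij : i ≠ j)
    (h : ∀ n < m, V n (.u i) ↔ V n (.u j)) {a : Fm} (ha : a.DiaFree) (hm : mv a ≤ m)
    (w : Wd k) :
    ev (Fk k) (fun A => A) V a w ↔ ev (Gk i) (fun A => A) V a w := by
  induction a generalizing w with
  | var n => exact Iff.rfl
  | bot => exact Iff.rfl
  | and a b iha ihb =>
    exact and_congr (iha ha.1 (le_trans (le_max_left _ _) hm) w)
      (ihb ha.2 (le_trans (le_max_right _ _) hm) w)
  | or a b iha ihb =>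
    exact or_congr (iha ha.1 (le_trans (le_max_left _ _) hm) w)
      (ihb ha.2 (le_trans (le_max_right _ _) hm) w)
  | imp a b iha ihb =>
    have h1 := iha ha.1 (le_trans (le_max_left _ _) hm)
    have h2 := ihb ha.2 (le_trans (le_max_right _ _) hm)
    exact ⟨fun hx w' hw hwa => (h2 w').1 (hx w' hw ((h1 w').2 hwa)),
      fun hx w' hw hwa => (h2 w').2 (hx w' hw ((h1 w').1 hwa))⟩
  | box a iha =>
    have hag := agree (k := k) (V := V) h (a := a) ha hm
    constructor
    · intro hx w' hw x hwx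
      rw [← iha ha hm]
      change wR' i w' x at hwx
      change wle w w' at hw
      cases w' <;> cases x <;> simp only [wR'] at hwx
      · exact hx .M hw .v trivial
      · rw [hwx]
        obtain ⟨l, hl⟩ : ∃ l : Fin k, l ≠ i := ⟨j, hij.symm⟩
        exact hx (.n l) (wle_trans hw trivial) (.u i) hl
      · rename_i l x
        by_cases hlx : l = x
        · have hxi : x = i := by
            rcases hwx with h' | h'
            · exact absurd hlx h'
            · exact h'
          rw [hxi, hag]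
          exact hx (.n l) hw (.u j) (by change l ≠ j; rw [hlx, hxi]; exact hij)
        · exact hx (.n l) hw (.u x) hlx
    · intro hx w' hw x hwx
      rw [iha ha hm]
      refine hx w' hw x ?_
      change wR w' x at hwx
      change wR' i w' x
      cases w' <;> cases x <;> simp only [wR] at hwx
      · trivial
      · exact Or.inl hwx
  | dia a => exact absurd ha (by simp [DiaFree])

/-- The diamond free theorems of `L₂` in few variables are valid in `F_k`. -/
theorem few_vars {k m : ℕ} (hkm : 2 ^ m < k) {a : Fm} (ha : a.DiaFree)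
    (hm : mv a ≤ m) (h2 : a ∈ L2) : a ∈ Val (Fk k) (fun A => A) := by
  classical
  intro V hV w
  obtain ⟨i, j, hij, h⟩ : ∃ i j : Fin k, i ≠ j ∧ ∀ n < m, (V n (.u i) ↔ V n (.u j)) := by
    let f : Fin k → (Fin m → Bool) := fun i n => decide (V n (.u i))
    obtain ⟨i, j, hij, hf⟩ := Fintype.exists_ne_map_eq_of_card_lt f (by simpa using hkm)
    refine ⟨i, j, hij, fun n hn => ?_⟩
    have := congrFun hf ⟨n, hn⟩
    simpa [f] using this
  rw [transfer hij h ha hm, ev_diaFree (Gk i) _ (exD (Gk i)) V ha]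
  exact l2_val (gk_fc i) h2 V hV w

/-- The valuation refuting `psi k`: `c` holds at all `u i`, and `s_(i+1)` only at `u i`. -/
def V0 (k : ℕ) (n : ℕ) (w : Wd k) : Prop := ∃ i : Fin k, w = .u i ∧ (n = 0 ∨ n = i + 1)

theorem V0_up (k n : ℕ) : Up (Fk k) (V0 k n) := by
  rintro a b hab ⟨i, rfl, h⟩
  change wle (.u i) b at hab
  cases b <;> simp only [wle] at hab
  exact ⟨i, by rw [hab], h⟩

/-- `psi k` fails in `F_k`. -/
theorem psi_fails (k : ℕ) : psi k ∉ Val (Fk k) (fun A => A) := by
  intro h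
  have h0 := h (V0 k) (V0_up k) .M
  simp only [psi, ev] at h0
  have hA : ∀ (w' : Wd k), (Fk k).le .M w' → ∀ (x : Wd k), (Fk k).R w' x →
      (∀ (w' : Wd k), (Fk k).le x w' → V0 k 0 w' →
        ev (Fk k) (fun A => A) (V0 k) (bigor (ss k)) w') ∨ V0 k 0 x := by
    intro w' _ x hx
    change wR w' x at hx
    cases w' <;> cases x <;> simp only [wR] at hx
    · left
      rintro y _ ⟨i, rfl, _⟩
      rw [ev_bigor]
      exact ⟨var (i + 1), by simp only [ss, List.mem_map, List.mem_range]; exact ⟨i, i.2, rfl⟩,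
        ⟨i, rfl, Or.inr rfl⟩⟩
    · rename_i j
      exact Or.inr ⟨j, rfl, Or.inl rfl⟩
  have hN : ¬ ∀ w' : Wd k, (Fk k).le .N w' →
      (∀ (w'_1 : Wd k), (Fk k).le w' w'_1 → ∀ (x : Wd k), (Fk k).R w'_1 x → V0 k 0 x) →
        ev (Fk k) (fun A => A) (V0 k) (bigor (List.map nbn (ss k))) w' := by
    intro hb
    have h1 := hb .N ((Fk k).refl _) (by
      intro w1 hw1 x hx
      change wle .N w1 at hw1
      change wR w1 x at hx
      cases w1 <;> simp only [wle] at hw1 <;> cases x <;> simp only [wR] at hx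
      rename_i j
      exact ⟨j, rfl, Or.inl rfl⟩)
    rw [ev_bigor] at h1
    obtain ⟨a, ha, hev⟩ := h1
    simp only [ss, List.mem_map, List.mem_range] at ha
    obtain ⟨b, ⟨i, hi, rfl⟩, rfl⟩ := ha
    refine hev (.n ⟨i, hi⟩) trivial ?_
    intro w3 hw3 x hx y hy hV
    obtain ⟨j, rfl, hj⟩ := hV
    change wle (.n _) w3 at hw3
    change wR w3 x at hx
    change wle x (.u j) at hy
    cases w3 <;> simp only [wle] at hw3
    cases x <;> simp only [wR] at hx
    simp only [wle] at hy
    rcases hj with hj | hj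
    · omega
    · apply hx
      rw [← hw3, hy]
      ext
      simp only
      omega
  have hC := h0 .M ((Fk k).refl _) hA .M ((Fk k).refl _) (by
    intro w' hw' hb
    change wle .M w' at hw'
    cases w' <;> simp only [wle] at hw'
    · exact absurd (fun w1 hw1 => hb w1 ((Fk k).trans (show (Fk k).le Wd.M Wd.N from trivial) hw1)) hN
    · exact absurd hb hN
    · intro w1 hw1 x hx
      change wle (.n _) w1 at hw1
      change wR w1 x at hx
      cases w1 <;> simp only [wle] at hw1
      cases x <;> simp only [wR] at hx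
      rename_i j
      exact ⟨j, rfl, Or.inl rfl⟩) .M ((Fk k).refl _) .v trivial
  obtain ⟨i, hi, _⟩ := hC
  exact absurd hi (by simp)

theorem chi_diaFree : chi.DiaFree := by simp [chi, neg, DiaFree]

/-- **Main theorem.** Q1: some diamond free theorem of `L₂` is not a theorem of `L₁`. Q2: the
diamond free fragment of `L₁` is finitely axiomatisable, namely by the single formula
`□(p ∨ q) → ((¬□¬p → □q) → □q)`, and that of `L₂` is not finitely axiomatisable. -/
theorem result :
    (∃ a : Fm, a.DiaFree ∧ a ∈ L2 ∧ a ∉ L1) ∧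
      fragment L1 = fragment (oplus CKbox {chi}) ∧ FinAx (fragment L1) ∧
        ¬ FinAx (fragment L2) := by
  refine ⟨⟨psi 2, psi_diaFree 2, psi_mem 2, fun h => ?_⟩, fragment_l1,
    ⟨{chi}, Set.finite_singleton _, ?_, fragment_l1⟩, ?_⟩
  · have h1 : psi 2 ∈ fragment L1 := ⟨psi_diaFree 2, h⟩
    rw [fragment_l1] at h1
    exact psi_fails 2 (chi_val le_rfl h1.2)
  · rintro a rfl
    exact chi_diaFree
  · rintro ⟨X, hX, hXd, hXe⟩
    obtain ⟨m, hm⟩ := (hX.image mv).bddAbove
    have hk : 2 ^ m < 2 ^ m + 1 := Nat.lt_succ_self _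
    have hXL : X ⊆ fragment L2 := by
      intro a ha
      rw [hXe]
      refine ⟨hXd a ha, ?_⟩
      have := ax_oplus (L := CKbox) ha var
      have hv : ∀ b : Fm, b.subst var = b := by
        intro b
        induction b with
        | var n => rfl
        | bot => rfl
        | and a b ha hb => simp only [subst, ha, hb]
        | or a b ha hb => simp only [subst, ha, hb]
        | imp a b ha hb => simp only [subst, ha, hb]
        | box a ha => simp only [subst, ha]
        | dia a ha => simp only [subst, ha]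
      rwa [hv] at this
    have h1 : oplus CKbox X ⊆ Val (Fk (2 ^ m + 1)) (fun A => A) := by
      refine oplus_val (id_up _) (ckbox_val (id_up _)) ?_
      intro a ha
      exact few_vars hk (hXd a ha) (hm ⟨a, ha, rfl⟩) (hXL ha).2
    have h2 : psi (2 ^ m + 1) ∈ fragment L2 := ⟨psi_diaFree _, psi_mem _⟩
    rw [hXe] at h2
    exact psi_fails _ (h1 h2.2)

end Pool.Agent.Results.MP_1f55c7_lc.DiamondFreeFragments
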